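import Pool.Agent.H.MP_22db8c_al.helper22.Fin

set_option autoImplicit false

/-!
MP_22db8c_al: for all `D` and `N` there is a subgroup `Λ` of finite index of the principal congruence
subgroup of level two which is not open in the topology given, for any `r`, by those finite quotients
of the free solvable group of derived length `r` all of whose chief factors satisfy one of two
conditions: the commutator of the two generators differs from the identity by an operator of rank at
most `D`, or some primitive element acts with an order not divisible by `N`.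
-/

namespace Pool.Agent.Results.MP_22db8c_al.ChiefFactors

open Matrix

/-- the free group on two generators -/
abbrev F2 : Type := FreeGroup (Fin 2)

/-- the free solvable group of derived length `r` on two generators -/
def Phi (r : ℕ) : Type := F2 ⧸ derivedSeries F2 r

/-- its group structure -/
instance instPhi (r : ℕ) : Group (Phi r) := inferInstanceAs (Group (F2 ⧸ derivedSeries F2 r))

/-- the quotient map -/
def pr (r : ℕ) : F2 →* Phi r := QuotientGroup.mk' (derivedSeries F2 r)

/-- the commutator of the two generators -/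
def com : F2 := FreeGroup.of 0 * FreeGroup.of 1 * (FreeGroup.of 0)⁻¹ * (FreeGroup.of 1)⁻¹

/-- the exponent sum of the generator `i` -/
def expo (i : Fin 2) : F2 →* Multiplicative ℤ :=
  FreeGroup.lift fun j => Multiplicative.ofAdd (if j = i then 1 else 0)

/-- the matrix of the automorphism induced on the abelianisation -/
def mat (f : MulAut F2) : Matrix (Fin 2) (Fin 2) ℤ :=
  Matrix.of fun i j => Multiplicative.toAdd (expo i (f (FreeGroup.of j)))

/-- `C / A` is a chief factor of `H` -/
def IsChief {H : Type} [Group H] (A C : Subgroup H) : Prop :=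
  A.Normal ∧ C.Normal ∧ A < C ∧ ∀ M : Subgroup H, M.Normal → A ≤ M → M ≤ C → M = A ∨ M = C

/-- a finite-dimensional representation of `H` over some field -/
structure LinRep (H : Type) [Group H] where
  /-- the field -/
  k : Type
  /-- the field structure -/
  [field : Field k]
  /-- the space -/
  V : Type
  /-- its addition -/
  [add : AddCommGroup V]
  /-- its scalar multiplication -/
  [module : Module k V]
  /-- the dimension is finite -/
  [fin : FiniteDimensional k V]
  /-- the action -/
  act : H →* Module.End k V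

attribute [instance] LinRep.field LinRep.add LinRep.module LinRep.fin

/-- the rank of `h - 1` is at most `D` -/
def LinRep.RankLE {H : Type} [Group H] (R : LinRep H) (h : H) (D : ℕ) : Prop :=
  ∃ U : Submodule R.k R.V, Module.finrank R.k U ≤ D ∧ ∀ v : R.V, R.act h v - v ∈ U

/-- the factor `C / A`, with the action of `H` by conjugation, is isomorphic to the representation -/
def LinRep.IsFactor {H : Type} [Group H] (R : LinRep H) (A C : Subgroup H) : Prop :=
  ∃ f : C → R.V, Function.Surjective f ∧ (∀ c c' : C, f (c * c') = f c + f c') ∧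
    (∀ c : C, f c = 0 ↔ (c : H) ∈ A) ∧
    ∀ (h : H) (c c' : C), (c' : H) = h * c * h⁻¹ → f c' = R.act h (f c)

/-- `C / A` is isomorphic, as a group on which `Phi r` acts by conjugation, to a finite-dimensional
vector space over some field on which `Phi r` acts linearly, and the commutator of the two
generators minus the identity has rank at most `D` -/
def SmallRank (r D : ℕ) (A C : Subgroup (Phi r)) : Prop :=
  ∃ R : LinRep (Phi r), R.IsFactor A C ∧ R.RankLE (pr r com) D

/-- `x` acts on `C / A` with an order not divisible by `N` -/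
def OrderND {H : Type} [Group H] (N : ℕ) (x : H) (A C : Subgroup H) : Prop :=
  ∃ e : ℕ, ¬ N ∣ e ∧ ∀ c ∈ C, x ^ e * c * (x ^ e)⁻¹ * c⁻¹ ∈ A

/-- `f` maps the commutator to a conjugate of itself or of its inverse (true for all `f`) -/
def Geom (f : MulAut F2) : Prop :=
  ∃ w : F2, f com = w * com * w⁻¹ ∨ f com = w * com⁻¹ * w⁻¹

/-- some primitive element of the free group acts on `C / A` with an order not divisible by `N` -/
def SmallOrder (r N : ℕ) (A C : Subgroup (Phi r)) : Prop :=
  ∃ f : MulAut F2, Geom f ∧ OrderND N (pr r (f (FreeGroup.of 0))) A C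

/-- all chief factors of `Phi r` above `K` satisfy one of the two conditions -/
def Small (r D N : ℕ) (K : Subgroup (Phi r)) : Prop :=
  ∀ A C : Subgroup (Phi r), K ≤ A → IsChief A C → SmallRank r D A C ∨ SmallOrder r N A C

/-- the underlying matrix -/
def toMat (g : CongruenceSubgroup.Gamma 2) : Matrix (Fin 2) (Fin 2) ℤ := g.1.1

/-- `f` acts trivially on the quotient of `Phi r` by `K` -/
def TrivMod (r : ℕ) (K : Subgroup (Phi r)) (f : MulAut F2) : Prop :=
  ∀ x : F2, pr r (f x) * (pr r x)⁻¹ ∈ K

/-- some automorphism which acts trivially on the quotient by `K` has its matrix in the congruence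
subgroup but not in `Λ` -/
def Missed (r : ℕ) (K : Subgroup (Phi r)) (Λ : Subgroup (CongruenceSubgroup.Gamma 2)) : Prop :=
  ∃ (f : MulAut F2) (g : CongruenceSubgroup.Gamma 2), f com = com ∧ toMat g = mat f ∧ g ∉ Λ ∧
    TrivMod r K f

section phi

variable (r : ℕ)

theorem pr_surj : Function.Surjective (pr r) :=
  QuotientGroup.mk'_surjective (derivedSeries F2 r)

theorem pr_ker : (pr r).ker = derivedSeries F2 r := QuotientGroup.ker_mk' (derivedSeries F2 r)

theorem comap_map (A : Subgroup F2)
    (hA : derivedSeries F2 r ≤ A) : (A.map (pr r)).comap (pr r) = A :=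
  Subgroup.comap_map_eq_self (by rw [pr_ker]; exact hA)

theorem mem_map_iff (A : Subgroup F2)
    (hA : derivedSeries F2 r ≤ A) (x : F2) :
    pr r x ∈ A.map (pr r) ↔ x ∈ A := by
  rw [← Subgroup.mem_comap, comap_map r A hA]

theorem chief_map (A C : Subgroup F2)
    (hA : derivedSeries F2 r ≤ A) (h : Pool.MP_22db8c_al.BD.IsChief A C) :
    IsChief (A.map (pr r)) (C.map (pr r)) := by
  have hs := pr_surj r
  obtain ⟨h1, h2, h3, h4⟩ := h
  have hAe := comap_map r A hA
  have hCe := comap_map r C (hA.trans h3.le)
  refine ⟨h1.map _ hs, h2.map _ hs, ?_, ?_⟩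
  · rw [← Subgroup.comap_lt_comap_of_surjective hs, hAe, hCe]
    exact h3
  · intro M hM hAM hMC
    have h5 := h4 (M.comap (pr r)) (hM.comap _)
      (by rw [← hAe]; exact Subgroup.comap_mono hAM)
      (by
        have := Subgroup.comap_mono (f := pr r) hMC
        rwa [hCe] at this)
    rcases h5 with h5 | h5
    · left
      rw [← h5, Subgroup.map_comap_eq_self_of_surjective hs]
    · right
      rw [← h5, Subgroup.map_comap_eq_self_of_surjective hs]

theorem rank_map (D : ℕ) (A C : Subgroup F2)
    (hA : derivedSeries F2 r ≤ A)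
    (h : SmallRank r D (A.map (pr r)) (C.map (pr r))) : Pool.MP_22db8c_al.BD.RankLE D A C := by
  obtain ⟨R, ⟨f, h1, h0, h2, h3⟩, U, hU, hUv⟩ := h
  let F : (C.map (pr r) : Subgroup (Phi r)) →* Multiplicative R.V :=
    MonoidHom.mk' (fun c => Multiplicative.ofAdd (f c)) (fun c c' => by rw [h0]; rfl)
  have hF : ∀ c, F c = Multiplicative.ofAdd (f c) := fun c => rfl
  refine ⟨R.k, inferInstance, R.V, inferInstance, inferInstance, inferInstance, R.act.comp (pr r),
    F.comp ((pr r).subgroupMap C), ?_, ?_, ?_, ?_⟩
  · have hle : LinearMap.range ((R.act.comp (pr r)) Pool.MP_22db8c_al.BD.com - 1) ≤ U := by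
      rintro _ ⟨v, rfl⟩
      exact hUv v
    exact (Submodule.finrank_mono hle).trans hU
  · have hs : Function.Surjective F := fun v => by
      obtain ⟨c, hc⟩ := h1 (Multiplicative.toAdd v)
      exact ⟨c, by rw [hF, hc]; rfl⟩
    exact hs.comp ((pr r).subgroupMap_surjective C)
  · intro c
    have e1 : (F.comp ((pr r).subgroupMap C)) c = 1 ↔ f ((pr r).subgroupMap C c) = 0 := Iff.rfl
    rw [e1, h2]
    exact mem_map_iff r A hA c
  · intro x c c' hc
    refine h3 (pr r x) ((pr r).subgroupMap C c) ((pr r).subgroupMap C c') ?_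
    change pr r (c' : F2) = pr r x * pr r (c : F2) * (pr r x)⁻¹
    rw [hc, map_mul, map_mul, map_inv]

theorem prim_map (N : ℕ) (A C : Subgroup F2)
    (hA : derivedSeries F2 r ≤ A) (hAn : A.Normal) (hCn : C.Normal)
    (h : SmallOrder r N (A.map (pr r)) (C.map (pr r))) : Pool.MP_22db8c_al.BD.PrimND N A C := by
  obtain ⟨f, ⟨w, h1⟩, e, h2, h3⟩ := h
  have h4 : ∀ c ∈ C, f (FreeGroup.of 0) ^ e * c * (f (FreeGroup.of 0) ^ e)⁻¹ * c⁻¹ ∈ A := by
    intro c hc
    have h5 := h3 (pr r c) ⟨c, hc, rfl⟩
    rw [← mem_map_iff r A hA]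
    rw [map_mul, map_mul, map_mul, map_inv, map_inv, map_pow]
    exact h5
  refine ⟨(MulAut.conj w)⁻¹ * f, e, ?_, h2, ?_⟩
  · have e1 : ((MulAut.conj w)⁻¹ * f) com = w⁻¹ * f com * w := by
      change (MulAut.conj w)⁻¹ (f com) = _
      rw [MulAut.conj_inv_apply]
    rcases h1 with h1 | h1
    · left
      change ((MulAut.conj w)⁻¹ * f) com = com
      rw [e1, h1]
      group
    · right
      change ((MulAut.conj w)⁻¹ * f) com = com⁻¹
      rw [e1, h1]
      group
  · intro c hc
    have e1 : ((MulAut.conj w)⁻¹ * f) (FreeGroup.of 0) = w⁻¹ * f (FreeGroup.of 0) * w := by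
      change (MulAut.conj w)⁻¹ (f (FreeGroup.of 0)) = _
      rw [MulAut.conj_inv_apply]
    have e2 : (w⁻¹ * f (FreeGroup.of 0) * w) ^ e = w⁻¹ * f (FreeGroup.of 0) ^ e * w := by
      have := conj_pow (a := w⁻¹) (b := f (FreeGroup.of 0)) (i := e)
      rw [inv_inv] at this
      exact this
    have h5 := hAn.conj_mem _ (h4 (w * c * w⁻¹) (hCn.conj_mem c hc w)) w⁻¹
    rw [e1, e2]
    have e3 : w⁻¹ * f (FreeGroup.of 0) ^ e * w * c * (w⁻¹ * f (FreeGroup.of 0) ^ e * w)⁻¹ * c⁻¹ =
        w⁻¹ * (f (FreeGroup.of 0) ^ e * (w * c * w⁻¹) * (f (FreeGroup.of 0) ^ e)⁻¹ *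
          (w * c * w⁻¹)⁻¹) * w⁻¹⁻¹ := by group
    rw [e3]
    exact h5

end phi

/-- For all `D` and all positive `N` there is a subgroup `Λ` of finite index of the principal
congruence subgroup of level two such that, for every `r` and every characteristic subgroup `K` of
finite index of the free solvable group `Phi r` all of whose chief factors above `K` satisfy
`SmallRank` or `SmallOrder`, there is an automorphism of the free group which acts trivially modulo
`K` and whose matrix is in the congruence subgroup but not in `Λ`. -/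
theorem result (D N : ℕ) (hN : 0 < N) :
    ∃ Λ : Subgroup (CongruenceSubgroup.Gamma 2), Λ.FiniteIndex ∧
      ∀ (r : ℕ) (K : Subgroup (Phi r)), K.Characteristic → K.FiniteIndex → Small r D N K →
        Missed r K Λ := by
  obtain ⟨Λ, hΛ, hmain⟩ := Pool.MP_22db8c_al.BD.main_F2 D N hN
  refine ⟨Λ, hΛ, ?_⟩
  intro r K hKc hKf hch
  have hKn : K.Normal := inferInstance
  have hker : derivedSeries F2 r ≤ K.comap (pr r) := by
    intro x hx
    change pr r x ∈ K
    have : pr r x = 1 := (QuotientGroup.eq_one_iff x).2 hx
    rw [this]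
    exact K.one_mem
  have hinv : ∀ (f : MulAut F2), ∀ x ∈ K.comap (pr r), f x ∈ K.comap (pr r) := by
    intro f x hx
    have hmap : (derivedSeries F2 r).map (f : F2 →* F2) = derivedSeries F2 r :=
      map_derivedSeries_eq f.surjective r
    let e : Phi r ≃* Phi r := QuotientGroup.congr (derivedSeries F2 r) (derivedSeries F2 r) f hmap
    have h1 : K.comap (e : Phi r →* Phi r) = K := hKc.fixed e
    have h2 : pr r x ∈ K.comap (e : Phi r →* Phi r) := by
      rw [h1]
      exact hx
    exact h2
  have hKf2 : (K.comap (pr r)).FiniteIndex := by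
    constructor
    rw [Subgroup.index_comap_of_surjective K (pr_surj r)]
    exact hKf.index_ne_zero
  obtain ⟨f, g, h1, h2, h3, h4⟩ := hmain r (K.comap (pr r)) (hKn.comap _) hinv hKf2 hker (by
    intro A C hKA hAC
    have hA := hker.trans hKA
    have h1 : K ≤ A.map (pr r) := by
      have := Subgroup.map_mono (f := pr r) hKA
      rwa [Subgroup.map_comap_eq_self_of_surjective (pr_surj r)] at this
    rcases hch _ _ h1 (chief_map r A C hA hAC) with h | h
    · left
      exact rank_map r D A C hA h
    · right
      exact prim_map r N A C hA hAC.1 hAC.2.1 h)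
  refine ⟨f, g, h1, h2, h3, fun x => ?_⟩
  have h5 := h4 x
  change pr r (f x * x⁻¹) ∈ K at h5
  rw [map_mul, map_inv] at h5
  exact h5

end Pool.Agent.Results.MP_22db8c_al.ChiefFactors
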