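import Pool.Agent.H.MP_22db8c_al.Res
import Mathlib.NumberTheory.ModularForms.CongruenceSubgroups

set_option autoImplicit false

/-!
MP_22db8c_al: every homomorphism of the principal congruence subgroup of level two to the group of
invertible two by two matrices over a finite commutative ring is continuous for the topology given
by the free solvable group of derived length three.
-/

namespace Pool.Agent.Results.MP_22db8c_al.GammaTwoRankTwo

open Matrix

universe u

/-- the free solvable group of derived length `r` on two generators -/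
abbrev Phi (r : ℕ) : Type := FreeGroup (Fin 2) ⧸ derivedSeries (FreeGroup (Fin 2)) r

/-- the commutator of the two generators -/
def com : FreeGroup (Fin 2) :=
  FreeGroup.of 0 * FreeGroup.of 1 * (FreeGroup.of 0)⁻¹ * (FreeGroup.of 1)⁻¹

/-- the exponent sum of the generator `i` -/
def expo (i : Fin 2) : FreeGroup (Fin 2) →* Multiplicative ℤ :=
  FreeGroup.lift fun j => Multiplicative.ofAdd (if j = i then 1 else 0)

/-- the matrix of the automorphism induced on the abelianisation -/
def mat (f : MulAut (FreeGroup (Fin 2))) : Matrix (Fin 2) (Fin 2) ℤ :=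
  Matrix.of fun i j => Multiplicative.toAdd (expo i (f (FreeGroup.of j)))

/-- `f` induces an inner automorphism of the quotient of `Phi r` by `K` -/
def InnerMod (r : ℕ) (K : Subgroup (Phi r)) (f : MulAut (FreeGroup (Fin 2))) : Prop :=
  ∃ k : Phi r, ∀ x : FreeGroup (Fin 2), ((f x : FreeGroup (Fin 2)) : Phi r) *
    (k * (x : Phi r) * k⁻¹)⁻¹ ∈ K

open Pool.MP_59b15d_al.H76

theorem expo_toHeis (g : FreeGroup (Fin 2)) :
    Multiplicative.toAdd (expo 0 g) = (toHeis ℤ g).x ∧
      Multiplicative.toAdd (expo 1 g) = (toHeis ℤ g).y := by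
  induction g using FreeGroup.induction_on with
  | C1 => simp
  | of i =>
    fin_cases i
    · have := toHeis_a ℤ
      constructor
      · change Multiplicative.toAdd (expo 0 (FreeGroup.of 0)) = (toHeis ℤ (FreeGroup.of 0)).x
        rw [this]; simp [expo]
      · change Multiplicative.toAdd (expo 1 (FreeGroup.of 0)) = (toHeis ℤ (FreeGroup.of 0)).y
        rw [this]; simp [expo]
    · have := toHeis_b ℤ
      constructor
      · change Multiplicative.toAdd (expo 0 (FreeGroup.of 1)) = (toHeis ℤ (FreeGroup.of 1)).x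
        rw [this]; simp [expo]
      · change Multiplicative.toAdd (expo 1 (FreeGroup.of 1)) = (toHeis ℤ (FreeGroup.of 1)).y
        rw [this]; simp [expo]
  | inv_of i ih =>
    obtain ⟨h1, h2⟩ := ih
    rw [(inv_xy ℤ _).1, (inv_xy ℤ _).2, ← h1, ← h2, MonoidHom.map_inv, MonoidHom.map_inv]
    exact ⟨rfl, rfl⟩
  | mul a b ha hb =>
    obtain ⟨h1, h2⟩ := ha
    obtain ⟨h3, h4⟩ := hb
    rw [(mul_xy ℤ _ _).1, (mul_xy ℤ _ _).2, ← h1, ← h2, ← h3, ← h4, MonoidHom.map_mul,
      MonoidHom.map_mul]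
    exact ⟨rfl, rfl⟩

theorem mat_eq (f : MulAut (FreeGroup (Fin 2))) : mat f =
    !![(toHeis ℤ (f (FreeGroup.of 0))).x, (toHeis ℤ (f (FreeGroup.of 1))).x;
      (toHeis ℤ (f (FreeGroup.of 0))).y, (toHeis ℤ (f (FreeGroup.of 1))).y] := by
  ext i j
  fin_cases i <;> fin_cases j
  · exact (expo_toHeis _).1
  · exact (expo_toHeis _).1
  · exact (expo_toHeis _).2
  · exact (expo_toHeis _).2

theorem mat_mul (f g : MulAut (FreeGroup (Fin 2))) : mat (f * g) = mat f * mat g := by
  rw [mat_eq, mat_eq, mat_eq, MulAut.mul_apply, MulAut.mul_apply]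
  obtain ⟨h1, h2⟩ := xy_formula ℤ f (g (FreeGroup.of 0))
  obtain ⟨h3, h4⟩ := xy_formula ℤ f (g (FreeGroup.of 1))
  rw [h1, h2, h3, h4]
  ext i j
  fin_cases i <;> fin_cases j <;> simp [Matrix.mul_apply, Fin.sum_univ_two]

theorem mat_one : mat 1 = 1 := by
  rw [mat_eq]
  change !![(toHeis ℤ (FreeGroup.of 0)).x, (toHeis ℤ (FreeGroup.of 1)).x;
    (toHeis ℤ (FreeGroup.of 0)).y, (toHeis ℤ (FreeGroup.of 1)).y] = 1
  rw [(of0_xy ℤ).1, (of0_xy ℤ).2, (of1_xy ℤ).1, (of1_xy ℤ).2]
  ext i j
  fin_cases i <;> fin_cases j <;> rfl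

theorem mat_conj (h : FreeGroup (Fin 2)) : mat (MulAut.conj h) = 1 := by
  rw [mat_eq, (conj_xy ℤ h _).1, (conj_xy ℤ h _).1, (conj_xy ℤ h _).2, (conj_xy ℤ h _).2,
    (of0_xy ℤ).1, (of0_xy ℤ).2, (of1_xy ℤ).1, (of1_xy ℤ).2]
  ext i j
  fin_cases i <;> fin_cases j <;> rfl

/-- the matrix as a homomorphism -/
def matHom : MulAut (FreeGroup (Fin 2)) →* Matrix (Fin 2) (Fin 2) ℤ where
  toFun := mat
  map_one' := mat_one
  map_mul' := mat_mul

/-- the generator `(1 2; 0 1)` -/
def genA : CongruenceSubgroup.Gamma 2 :=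
  ⟨⟨!![1, 2; 0, 1], by simp [Matrix.det_fin_two_of]⟩, by
    rw [CongruenceSubgroup.Gamma_mem]
    refine ⟨?_, ?_, ?_, ?_⟩ <;> (simp; try decide)⟩

/-- the generator `(1 0; -2 1)` -/
def genB : CongruenceSubgroup.Gamma 2 :=
  ⟨⟨!![1, 0; -2, 1], by simp [Matrix.det_fin_two_of]⟩, by
    rw [CongruenceSubgroup.Gamma_mem]
    refine ⟨?_, ?_, ?_, ?_⟩ <;> (simp; try decide)⟩

/-- the underlying matrix -/
def toM : CongruenceSubgroup.Gamma 2 →* Matrix (Fin 2) (Fin 2) ℤ where
  toFun g := ((g : SpecialLinearGroup (Fin 2) ℤ) : Matrix (Fin 2) (Fin 2) ℤ)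
  map_one' := rfl
  map_mul' _ _ := rfl

theorem mat_VV (u : F2) : mat (VV u) = toM (FreeGroup.lift ![genA, genB] u) := by
  have h : matHom.comp VV = toM.comp (FreeGroup.lift ![genA, genB]) := by
    ext1 i
    fin_cases i
    · change mat (VV (FreeGroup.of 0)) = toM (FreeGroup.lift ![genA, genB] (FreeGroup.of 0))
      rw [VV_0, FreeGroup.lift_apply_of, mat_eq, XX_a, XX_b]
      simp only [mul_xy, (of0_xy ℤ).1, (of0_xy ℤ).2, (of1_xy ℤ).1, (of1_xy ℤ).2]
      rfl
    · change mat (VV (FreeGroup.of 1)) = toM (FreeGroup.lift ![genA, genB] (FreeGroup.of 1))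
      rw [VV_1, FreeGroup.lift_apply_of, mat_eq, YY_a, YY_b]
      simp only [mul_xy, inv_xy, (of0_xy ℤ).1, (of0_xy ℤ).2, (of1_xy ℤ).1, (of1_xy ℤ).2]
      rfl
  exact DFunLike.congr_fun h u

/-- For every homomorphism `ρ` from the principal congruence subgroup of level two of `SL₂(ℤ)` to
`GL₂(R)`, `R` a finite commutative ring, and every `r ≥ 3` there is a characteristic subgroup `K` of
finite index of the free solvable group `Phi r` such that every automorphism `f` of the free group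
which preserves the conjugacy class of the commutator and is inner modulo `K` has its matrix in the
kernel of `ρ`. -/
theorem result {R : Type u} [CommRing R] [Finite R]
    (ρ : CongruenceSubgroup.Gamma 2 →* GL (Fin 2) R) (r : ℕ) (hr : 3 ≤ r) :
    ∃ K : Subgroup (Phi r), K.Characteristic ∧ K.FiniteIndex ∧
      ∀ f : MulAut (FreeGroup (Fin 2)), (∃ w : FreeGroup (Fin 2), f com = w * com * w⁻¹) →
        InnerMod r K f → ∃ g : CongruenceSubgroup.Gamma 2,
          ((g : SpecialLinearGroup (Fin 2) ℤ) : Matrix (Fin 2) (Fin 2) ℤ) = mat f ∧ ρ g = 1 := by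
  obtain ⟨K, h1, h2, h3⟩ := Pool.MP_22db8c_al.main_thm R (ρ genA) (ρ genB) r hr
  refine ⟨K, h1, h2, fun f hf hfK => ?_⟩
  obtain ⟨h, u, hfu, hu⟩ := h3 f hf hfK
  refine ⟨FreeGroup.lift ![genA, genB] u, ?_, ?_⟩
  · change toM (FreeGroup.lift ![genA, genB] u) = mat f
    rw [← mat_VV, hfu, mat_mul, mat_conj, one_mul]
  · have h4 : ρ.comp (FreeGroup.lift ![genA, genB]) = FreeGroup.lift ![ρ genA, ρ genB] := by
      ext1 i
      fin_cases i
      · change ρ (FreeGroup.lift ![genA, genB] (FreeGroup.of 0)) =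
          FreeGroup.lift ![ρ genA, ρ genB] (FreeGroup.of 0)
        rw [FreeGroup.lift_apply_of, FreeGroup.lift_apply_of]
        rfl
      · change ρ (FreeGroup.lift ![genA, genB] (FreeGroup.of 1)) =
          FreeGroup.lift ![ρ genA, ρ genB] (FreeGroup.of 1)
        rw [FreeGroup.lift_apply_of, FreeGroup.lift_apply_of]
        rfl
    have h5 := DFunLike.congr_fun h4 u
    rw [hu] at h5
    exact h5

end Pool.Agent.Results.MP_22db8c_al.GammaTwoRankTwo
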