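import Pool.Agent.H.MP_22db8c_al.helper22.HwN
import Mathlib.NumberTheory.ModularForms.CongruenceSubgroups

set_option autoImplicit false

/-!
MP_22db8c_al: homomorphisms of the principal congruence subgroup of level two, with images
containing special linear groups of unbounded degree, which are continuous for the topology given by
the free solvable group of derived length three.
-/

namespace Pool.Agent.Results.MP_22db8c_al.SpecialLinearQuotients

open Matrix

/-- the free solvable group of derived length `r` on two generators -/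
abbrev Phi (r : ℕ) : Type := FreeGroup (Fin 2) ⧸ derivedSeries (FreeGroup (Fin 2)) r

/-- the commutator of the two generators -/
def com : FreeGroup (Fin 2) :=
  FreeGroup.of 0 * FreeGroup.of 1 * (FreeGroup.of 0)⁻¹ * (FreeGroup.of 1)⁻¹

/-- the exponent sum of the generator `i` -/
def expo (i : Fin 2) : FreeGroup (Fin 2) →* Multiplicative ℤ :=
  FreeGroup.lift fun j => Multiplicative.ofAdd (if j = i then 1 else 0)

/-- the matrix of the automorphism induced on the abelianisation -/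
def mat (f : MulAut (FreeGroup (Fin 2))) : Matrix (Fin 2) (Fin 2) ℤ :=
  Matrix.of fun i j => Multiplicative.toAdd (expo i (f (FreeGroup.of j)))

/-- `f` induces an inner automorphism of the quotient of `Phi r` by `K` -/
def InnerMod (r : ℕ) (K : Subgroup (Phi r)) (f : MulAut (FreeGroup (Fin 2))) : Prop :=
  ∃ k : Phi r, ∀ x : FreeGroup (Fin 2), ((f x : FreeGroup (Fin 2)) : Phi r) *
    (k * (x : Phi r) * k⁻¹)⁻¹ ∈ K

/-- `ρ` is continuous for the topology given by every `Phi r`, `r ≥ 3`: there is a characteristic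
subgroup `K` of finite index of `Phi r` such that every automorphism `f` of the free group which
preserves the conjugacy class of the commutator and is inner modulo `K` has its matrix in the kernel
of `ρ` -/
def Cont {H : Type} [Group H] (ρ : CongruenceSubgroup.Gamma 2 →* H) : Prop :=
  ∀ r : ℕ, 3 ≤ r → ∃ K : Subgroup (Phi r), K.Characteristic ∧ K.FiniteIndex ∧
    ∀ f : MulAut (FreeGroup (Fin 2)), (∃ w : FreeGroup (Fin 2), f com = w * com * w⁻¹) →
      InnerMod r K f → ∃ g : CongruenceSubgroup.Gamma 2,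
        ((g : SpecialLinearGroup (Fin 2) ℤ) : Matrix (Fin 2) (Fin 2) ℤ) = mat f ∧ ρ g = 1

open Pool.MP_59b15d_al.H76

theorem expo_toHeis (g : FreeGroup (Fin 2)) :
    Multiplicative.toAdd (expo 0 g) = (toHeis ℤ g).x ∧
      Multiplicative.toAdd (expo 1 g) = (toHeis ℤ g).y := by
  induction g using FreeGroup.induction_on with
  | C1 => simp
  | of i =>
    fin_cases i
    · have := toHeis_a ℤ
      constructor
      · change Multiplicative.toAdd (expo 0 (FreeGroup.of 0)) = (toHeis ℤ (FreeGroup.of 0)).x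
        rw [this]; simp [expo]
      · change Multiplicative.toAdd (expo 1 (FreeGroup.of 0)) = (toHeis ℤ (FreeGroup.of 0)).y
        rw [this]; simp [expo]
    · have := toHeis_b ℤ
      constructor
      · change Multiplicative.toAdd (expo 0 (FreeGroup.of 1)) = (toHeis ℤ (FreeGroup.of 1)).x
        rw [this]; simp [expo]
      · change Multiplicative.toAdd (expo 1 (FreeGroup.of 1)) = (toHeis ℤ (FreeGroup.of 1)).y
        rw [this]; simp [expo]
  | inv_of i ih =>
    obtain ⟨h1, h2⟩ := ih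
    rw [(inv_xy ℤ _).1, (inv_xy ℤ _).2, ← h1, ← h2, MonoidHom.map_inv, MonoidHom.map_inv]
    exact ⟨rfl, rfl⟩
  | mul a b ha hb =>
    obtain ⟨h1, h2⟩ := ha
    obtain ⟨h3, h4⟩ := hb
    rw [(mul_xy ℤ _ _).1, (mul_xy ℤ _ _).2, ← h1, ← h2, ← h3, ← h4, MonoidHom.map_mul,
      MonoidHom.map_mul]
    exact ⟨rfl, rfl⟩

theorem mat_eq (f : MulAut (FreeGroup (Fin 2))) : mat f =
    !![(toHeis ℤ (f (FreeGroup.of 0))).x, (toHeis ℤ (f (FreeGroup.of 1))).x;
      (toHeis ℤ (f (FreeGroup.of 0))).y, (toHeis ℤ (f (FreeGroup.of 1))).y] := by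
  ext i j
  fin_cases i <;> fin_cases j
  · exact (expo_toHeis _).1
  · exact (expo_toHeis _).1
  · exact (expo_toHeis _).2
  · exact (expo_toHeis _).2

theorem mat_mul (f g : MulAut (FreeGroup (Fin 2))) : mat (f * g) = mat f * mat g := by
  rw [mat_eq, mat_eq, mat_eq, MulAut.mul_apply, MulAut.mul_apply]
  obtain ⟨h1, h2⟩ := xy_formula ℤ f (g (FreeGroup.of 0))
  obtain ⟨h3, h4⟩ := xy_formula ℤ f (g (FreeGroup.of 1))
  rw [h1, h2, h3, h4]
  ext i j
  fin_cases i <;> fin_cases j <;> simp [Matrix.mul_apply, Fin.sum_univ_two]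

theorem mat_one : mat 1 = 1 := by
  rw [mat_eq]
  change !![(toHeis ℤ (FreeGroup.of 0)).x, (toHeis ℤ (FreeGroup.of 1)).x;
    (toHeis ℤ (FreeGroup.of 0)).y, (toHeis ℤ (FreeGroup.of 1)).y] = 1
  rw [(of0_xy ℤ).1, (of0_xy ℤ).2, (of1_xy ℤ).1, (of1_xy ℤ).2]
  ext i j
  fin_cases i <;> fin_cases j <;> rfl

theorem mat_conj (h : FreeGroup (Fin 2)) : mat (MulAut.conj h) = 1 := by
  rw [mat_eq, (conj_xy ℤ h _).1, (conj_xy ℤ h _).1, (conj_xy ℤ h _).2, (conj_xy ℤ h _).2,
    (of0_xy ℤ).1, (of0_xy ℤ).2, (of1_xy ℤ).1, (of1_xy ℤ).2]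
  ext i j
  fin_cases i <;> fin_cases j <;> rfl

/-- the matrix as a homomorphism -/
def matHom : MulAut (FreeGroup (Fin 2)) →* Matrix (Fin 2) (Fin 2) ℤ where
  toFun := mat
  map_one' := mat_one
  map_mul' := mat_mul

/-- the words in the two generators as elements of the congruence subgroup -/
def wordM (u : FreeGroup (Fin 2)) : CongruenceSubgroup.Gamma 2 :=
  FreeGroup.lift ![Pool.MP_22db8c_al.BD.gA, Pool.MP_22db8c_al.BD.gB⁻¹] u

theorem mat_VV (u : F2) : mat (VV u) =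
    ((wordM u : SpecialLinearGroup (Fin 2) ℤ) : Matrix (Fin 2) (Fin 2) ℤ) := by
  have h : matHom.comp VV = Pool.MP_22db8c_al.BD.toM.comp
      (FreeGroup.lift ![Pool.MP_22db8c_al.BD.gA, Pool.MP_22db8c_al.BD.gB⁻¹]) := by
    ext1 i
    fin_cases i
    · change mat (VV (FreeGroup.of 0)) = Pool.MP_22db8c_al.BD.toM
        (FreeGroup.lift ![Pool.MP_22db8c_al.BD.gA, Pool.MP_22db8c_al.BD.gB⁻¹] (FreeGroup.of 0))
      rw [VV_0, FreeGroup.lift_apply_of, mat_eq, XX_a, XX_b]
      simp only [mul_xy, (of0_xy ℤ).1, (of0_xy ℤ).2, (of1_xy ℤ).1, (of1_xy ℤ).2]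
      rfl
    · change mat (VV (FreeGroup.of 1)) = Pool.MP_22db8c_al.BD.toM
        (FreeGroup.lift ![Pool.MP_22db8c_al.BD.gA, Pool.MP_22db8c_al.BD.gB⁻¹] (FreeGroup.of 1))
      rw [VV_1, FreeGroup.lift_apply_of, mat_eq, YY_a, YY_b]
      simp only [mul_xy, inv_xy, (of0_xy ℤ).1, (of0_xy ℤ).2, (of1_xy ℤ).1, (of1_xy ℤ).2]
      exact Pool.MP_22db8c_al.BD.toM_Bi.symm
  exact DFunLike.congr_fun h u

/-- Let `k ≥ 2` with `2k+1` prime and let `p` be a prime which is `1` modulo `2k+1`. There is a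
homomorphism `ρ` from the principal congruence subgroup of level two of `SL₂(ℤ)` to
`GL_{k+2}(ℤ/p)` whose image contains `SL_{k+2}(ℤ/p)` and which is continuous in the sense of
`Cont`. -/
theorem result (k : ℕ) (hk : 2 ≤ k) (hk' : (2 * k + 1).Prime) (p : ℕ) (hp : p.Prime)
    (hpk : p % (2 * k + 1) = 1) :
    ∃ ρ : CongruenceSubgroup.Gamma 2 →* GL (Fin (k + 2)) (ZMod p),
      (∀ S : SpecialLinearGroup (Fin (k + 2)) (ZMod p), ∃ g : CongruenceSubgroup.Gamma 2,
        ρ g = (S : GL (Fin (k + 2)) (ZMod p))) ∧ Cont ρ := by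
  have : Fact p.Prime := ⟨hp⟩
  have : Fact (2 * k + 1).Prime := ⟨hk'⟩
  have h2 := hp.two_le
  have hdvd : 2 * k + 1 ∣ p - 1 := (Nat.modEq_iff_dvd' (by omega)).1 (by
    change 1 % (2 * k + 1) = p % (2 * k + 1)
    rw [hpk, Nat.mod_eq_of_lt (by omega)])
  have hle : 2 * k + 1 ≤ p - 1 := Nat.le_of_dvd (by omega) hdvd
  obtain ⟨ψ, hψ⟩ := Pool.MP_22db8c_al.HW.exists_char (2 * k + 1) p hdvd
  have cast_ne : ∀ m : ℕ, m ≠ 0 → m < p → (m : ZMod p) ≠ 0 := by
    intro m hm hmp h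
    have h3 := (ZMod.natCast_eq_zero_iff m p).1 h
    have := Nat.le_of_dvd (Nat.pos_of_ne_zero hm) h3
    omega
  have hn : ((2 * k + 1 : ℕ) : ZMod p) ≠ 0 := cast_ne _ (by omega) (by omega)
  have hp2 : (2 : ZMod p) ≠ 0 := by
    have := cast_ne 2 (by norm_num) (by omega)
    exact_mod_cast this
  have hcop : (2 * k + 1).Coprime p := by
    rw [Nat.coprime_primes hk' hp]
    omega
  set b := Module.Basis.ofEquivFun (Pool.MP_22db8c_al.HW.eqv ψ hψ k rfl) with hb
  set R := (Pool.MP_22db8c_al.HW.tm b).comp (Pool.MP_22db8c_al.HW.RW ψ hψ hn) with hR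
  set φ : FreeGroup (Fin 2) →* GL (Fin (k + 2)) (ZMod p) :=
    FreeGroup.lift ![R (FreeGroup.of 0), (R (FreeGroup.of 1))⁻¹] with hφ
  -- the value at the words
  have key : ∀ u, Pool.MP_22db8c_al.BD.psi φ (wordM u) = R u := by
    have h : (Pool.MP_22db8c_al.BD.psi φ).comp
        (FreeGroup.lift ![Pool.MP_22db8c_al.BD.gA, Pool.MP_22db8c_al.BD.gB⁻¹]) = R := by
      ext1 i
      fin_cases i
      · change Pool.MP_22db8c_al.BD.psi φ (FreeGroup.lift ![Pool.MP_22db8c_al.BD.gA,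
          Pool.MP_22db8c_al.BD.gB⁻¹] (FreeGroup.of 0)) = R (FreeGroup.of 0)
        rw [FreeGroup.lift_apply_of]
        change Pool.MP_22db8c_al.BD.psi φ Pool.MP_22db8c_al.BD.gA = _
        rw [← Pool.MP_22db8c_al.BD.sv_0, Pool.MP_22db8c_al.BD.psi_sv, hφ, FreeGroup.lift_apply_of]
        rfl
      · change Pool.MP_22db8c_al.BD.psi φ (FreeGroup.lift ![Pool.MP_22db8c_al.BD.gA,
          Pool.MP_22db8c_al.BD.gB⁻¹] (FreeGroup.of 1)) = R (FreeGroup.of 1)
        rw [FreeGroup.lift_apply_of]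
        change Pool.MP_22db8c_al.BD.psi φ Pool.MP_22db8c_al.BD.gB⁻¹ = _
        rw [← Pool.MP_22db8c_al.BD.sv_1, map_inv, Pool.MP_22db8c_al.BD.psi_sv, hφ,
          FreeGroup.lift_apply_of]
        exact inv_inv _
    exact fun u => DFunLike.congr_fun h u
  refine ⟨Pool.MP_22db8c_al.BD.psi φ, fun S => ?_, fun r hr => ?_⟩
  · obtain ⟨u, hu⟩ := Pool.MP_22db8c_al.HW.sl_hw ψ hψ hn k rfl hp2 hcop S
    exact ⟨wordM u, (key u).trans hu⟩
  · obtain ⟨K, h3, h4, h5⟩ := Pool.MP_22db8c_al.HW.main_hw ψ hψ hn k rfl hk (by omega) r hr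
    refine ⟨K, h3, h4, fun f hf hfK => ?_⟩
    obtain ⟨h, u, hfu, hu⟩ := h5 f hf hfK
    refine ⟨wordM u, ?_, ?_⟩
    · rw [← mat_VV, hfu, mat_mul, mat_conj, one_mul]
    · rw [key, hR, MonoidHom.comp_apply, hu, map_one]

end Pool.Agent.Results.MP_22db8c_al.SpecialLinearQuotients
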